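import Pool.Agent.E8helper30.RG.Order
import Pool.Agent.E8helper13.RG.B
import Pool.Agent.E8helper44.RG.T
import Pool.Agent.E8helper89.RG.Qd
import Pool.Agent.E8helper73.RG.Cons
import Pool.Agent.E8helper38.RG.HG
import Pool.Agent.E8helper65.RG.CORE
import Pool.Agent.E8helper7.RG.Moore
import Pool.Agent.E8helper87.RG.Grow
import Pool.Agent.E8helper91.RG.Ball
import Pool.Agent.E8helper51.RG.Ugirth
import Pool.Agent.E8helper79.RG.Upath
import Pool.Agent.E8helper30.RG.Ucore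
import Pool.Agent.E8helper83.RG.UGrow

/-!
# Rainbow girth with colour classes of size two: exact values and the order of magnitude

`G` is a simple graph on the `n` vertices `Fin n`, `c : Sym2 (Fin n) → ℕ` gives the colours of its edges,
`ClassesTwo G c` says that every colour class has exactly two edges. `rg G c` is the rainbow girth: the
least length of a cycle of `G` whose edges have pairwise different colours (`⊤` if there is none).
`Values n t` is the set of the rainbow girths of all `(G, c)` with `n` vertices and `2 t` edges, and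
`f n t` is its supremum (the theorem also says that it is attained, so a maximum).
`Phi n t` is `(n/(t-n)) (1 + log (t-n))` if `12 (t-n+2) ≤ n` and `log n / log (t/n + 1)` otherwise.
-/

set_option autoImplicit false

namespace Pool.Agent.Results.MP_df8ddc_co.ExactAndOrderH30

/-- every colour class of `c` on the edges of `G` has exactly two edges -/
def ClassesTwo {n : ℕ} (G : SimpleGraph (Fin n)) (c : Sym2 (Fin n) → ℕ) : Prop :=
  ∀ e ∈ G.edgeSet, {e' : Sym2 (Fin n) | e' ∈ G.edgeSet ∧ c e' = c e}.ncard = 2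

/-- `(G, c)` has a rainbow cycle of length `k` -/
def HasRainbowCycle {n : ℕ} (G : SimpleGraph (Fin n)) (c : Sym2 (Fin n) → ℕ) (k : ℕ) : Prop :=
  ∃ (v : Fin n) (w : G.Walk v v), w.IsCycle ∧ w.length = k ∧ (w.edges.map c).Nodup

/-- the rainbow girth -/
noncomputable def rg {n : ℕ} (G : SimpleGraph (Fin n)) (c : Sym2 (Fin n) → ℕ) : ℕ∞ :=
  ⨅ (k : ℕ) (_ : HasRainbowCycle G c k), (k : ℕ∞)

/-- all rainbow girths of coloured graphs with `n` vertices, `2 t` edges and classes of size two -/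
def Values (n t : ℕ) : Set ℕ∞ :=
  {x | ∃ (G : SimpleGraph (Fin n)) (c : Sym2 (Fin n) → ℕ),
    G.edgeSet.ncard = 2 * t ∧ ClassesTwo G c ∧ x = rg G c}

/-- the function `f(n,t)` -/
noncomputable def f (n t : ℕ) : ℕ∞ := sSup (Values n t)

open Pool.Agent.E8helper30 in
theorem rg_eq {n : ℕ} (G : SimpleGraph (Fin n)) (c : Sym2 (Fin n) → ℕ) : rg G c = RG.rg G c := rfl

open Pool.Agent.E8helper30

theorem six_le {n t : ℕ} (h1 : n < t) (h2 : 2 * t ≤ n.choose 2) : 6 ≤ n := by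
  by_contra hcon
  have h3 : n ≤ 5 := by omega
  interval_cases n <;> simp [Nat.choose] at h2 <;> omega

/-- if `2 t` is above the threshold there is a rainbow triangle -/
theorem above {n t : ℕ} (h6 : 6 ≤ n) (ht : n ^ 2 / 4 + (n + 1) / 4 < 2 * t)
    (G : SimpleGraph (Fin n)) (c : Sym2 (Fin n) → ℕ) (hG : G.edgeSet.ncard = 2 * t)
    (hc : ClassesTwo G c) : rg G c = 3 := by
  rw [rg_eq]
  apply RG.rg_eq_three
  intro hno
  have h1 := RG.t_I Pool.Agent.E8helper44.RG.t_T Pool.Agent.E8helper89.RG.t_Q n G c Finset.univ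
    (RG.atMostTwo_of_classesTwo hc) hno (by rw [Finset.card_univ, Fintype.card_fin]; exact h6)
  rw [RG.darts_univ, hG, Finset.card_univ, Fintype.card_fin] at h1
  omega

/-- if `t > n √(n-1) / 2` there is a rainbow cycle of length at most four -/
theorem dense {n t : ℕ} (ht : n ^ 2 * (n - 1) < 4 * t ^ 2)
    (G : SimpleGraph (Fin n)) (c : Sym2 (Fin n) → ℕ) (hG : G.edgeSet.ncard = 2 * t)
    (hc : ClassesTwo G c) : rg G c ≤ 4 := by
  obtain ⟨H, hHG, hHt, hinj⟩ := RG.transversal hc hG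
  have hadj : ∀ {x y}, H.Adj x y → G.Adj x y := fun h => hHG h
  have hne : ∀ {e e' : Sym2 (Fin n)}, e ∈ H.edgeSet → e' ∈ H.edgeSet → e ≠ e' → c e ≠ c e' :=
    fun he he' h h' => h (hinj he he' h')
  by_contra hcon
  rw [rg_eq] at hcon
  have hB := Pool.Agent.E8helper13.RG.t_B n H ?_ ?_
  · rw [hHt] at hB; omega
  · intro x y z hxy hyz hzx
    apply hcon
    have h3 := RG.rg_le (RG.cyc3 (c := c) (hadj hxy) (hadj hyz) (hadj hzx)
      (hne hxy hyz ?_) (hne hyz hzx ?_) (hne hzx hxy ?_))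
    · exact h3.trans (by norm_num)
    · intro h
      rw [Sym2.eq_iff] at h
      rcases h with ⟨h, -⟩ | ⟨h, -⟩
      · exact hxy.ne h
      · exact hzx.ne h.symm
    · intro h
      rw [Sym2.eq_iff] at h
      rcases h with ⟨h, -⟩ | ⟨h, -⟩
      · exact hyz.ne h
      · exact hxy.ne h.symm
    · intro h
      rw [Sym2.eq_iff] at h
      rcases h with ⟨h, -⟩ | ⟨h, -⟩
      · exact hzx.ne h
      · exact hyz.ne h.symm
  · intro x y z w hxy hyz hzw hwx hxz hyw
    apply hcon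
    have h4 := RG.rg_le (RG.cyc4 (c := c) (hadj hxy) (hadj hyz) (hadj hzw) (hadj hwx) hxz hyw
      (hne hxy hyz ?_) (hne hxy hzw ?_) (hne hxy hwx ?_) (hne hyz hzw ?_) (hne hyz hwx ?_)
      (hne hzw hwx ?_))
    · exact_mod_cast h4
    · intro h
      rw [Sym2.eq_iff] at h
      rcases h with ⟨h, -⟩ | ⟨h, -⟩
      · exact hxy.ne h
      · exact hxz h
    · intro h
      rw [Sym2.eq_iff] at h
      rcases h with ⟨h, -⟩ | ⟨h, -⟩
      · exact hxz h
      · exact hwx.ne h.symm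
    · intro h
      rw [Sym2.eq_iff] at h
      rcases h with ⟨h, -⟩ | ⟨-, h⟩
      · exact hwx.ne h.symm
      · exact hyw h
    · intro h
      rw [Sym2.eq_iff] at h
      rcases h with ⟨h, -⟩ | ⟨h, -⟩
      · exact hyz.ne h
      · exact hyw h
    · intro h
      rw [Sym2.eq_iff] at h
      rcases h with ⟨h, -⟩ | ⟨h, -⟩
      · exact hyw h
      · exact hxy.ne h.symm
    · intro h
      rw [Sym2.eq_iff] at h
      rcases h with ⟨h, -⟩ | ⟨h, -⟩
      · exact hzw.ne h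
      · exact hxz h.symm

theorem exact_range (n t : ℕ) (h1 : n < t) (h2 : 2 * t ≤ n.choose 2) :
    (n ^ 2 / 4 + (n + 1) / 4 < 2 * t → f n t = 3 ∧ IsGreatest (Values n t) 3) ∧
    (2 * t ≤ n ^ 2 / 4 + (n + 1) / 4 → 4 ≤ f n t) ∧
    (2 * t ≤ n ^ 2 / 4 + (n + 1) / 4 → n ^ 2 * (n - 1) < 4 * t ^ 2 →
      f n t = 4 ∧ IsGreatest (Values n t) 4) := by
  refine ⟨fun h3 => ?_, fun h3 => ?_, fun h3 h4 => ?_⟩
  · have hg : IsGreatest (Values n t) 3 := by
      constructor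
      · obtain ⟨G, hG⟩ := RG.exists_graph (n := n) (2 * t) h2
        obtain ⟨c, hc⟩ := RG.exists_colouring G hG
        exact ⟨G, c, hG, hc, (above (six_le h1 h2) h3 G c hG hc).symm⟩
      · rintro x ⟨G, c, hG, hc, rfl⟩
        exact (above (six_le h1 h2) h3 G c hG hc).le
    exact ⟨hg.csSup_eq, hg⟩
  · obtain ⟨G, c, hG, hc, hno⟩ := Pool.Agent.E8helper73.RG.t_CONS n t h3
    exact (RG.four_le_rg hno).trans (le_sSup ⟨G, c, hG, hc, rfl⟩)
  · have hg : IsGreatest (Values n t) 4 := by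
      constructor
      · obtain ⟨G, c, hG, hc, hno⟩ := Pool.Agent.E8helper73.RG.t_CONS n t h3
        exact ⟨G, c, hG, hc, le_antisymm (RG.four_le_rg hno) (dense h4 G c hG hc)⟩
      · rintro x ⟨G, c, hG, hc, rfl⟩
        exact dense h4 G c hG hc
    exact ⟨hg.csSup_eq, hg⟩

/-- the order of magnitude of `f(n,t)` -/
noncomputable def Phi (n t : ℕ) : ℝ :=
  if 12 * (t - n + 2) ≤ n then (n : ℝ) / ((t - n : ℕ) : ℝ) * (1 + Real.log ((t - n : ℕ) : ℝ))
  else Real.log n / Real.log ((t : ℝ) / n + 1)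

theorem hHG : RG.S_HG := fun n D g hD hg h =>
  Pool.Agent.E8helper38.RG.t_HG Pool.Agent.E8helper91.RG.t_BALL n D g (by omega) hD h

theorem hMoore : RG.S_MOORE :=
  Pool.Agent.E8helper7.RG.t_MOORE Pool.Agent.E8helper65.RG.t_CORE Pool.Agent.E8helper87.RG.t_GROW

theorem hUgirth : RG.S_UGIRTH :=
  Pool.Agent.E8helper51.RG.t_UGIRTH Pool.Agent.E8helper30.RG.t_UCORE
    Pool.Agent.E8helper79.RG.t_UPATH Pool.Agent.E8helper83.RG.t_UGROW

theorem order_range (n t : ℕ) (hn : 24 ≤ n) (h1 : n < t) (h2 : 2 * t ≤ n.choose 2) :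
    ∃ m : ℕ, f n t = m ∧ IsGreatest (Values n t) m ∧
      1 / 80 * Phi n t ≤ m ∧ (m : ℝ) ≤ 152 * Phi n t := by
  obtain ⟨B, hB1, hB2⟩ := RG.order_up hUgirth hMoore n t hn h1 h2
  obtain ⟨G, c, m₀, hG, hc, hm1, hm2⟩ := RG.order_low hHG n t hn h1 h2
  have hle : ∀ x ∈ Values n t, x ≤ (B : ℕ∞) := by
    rintro x ⟨G', c', hG', hc', rfl⟩
    exact hB2 G' c' hG' hc'
  have hmem : rg G c ∈ Values n t := ⟨G, c, hG, hc, rfl⟩
  have hne : (Values n t).Nonempty := ⟨_, hmem⟩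
  have hfin : (Values n t).Finite := by
    apply Set.Finite.subset (Set.Finite.image (fun k : ℕ => (k : ℕ∞)) (Set.finite_Iic B))
    intro x hx
    have hxB := hle x hx
    obtain ⟨k, rfl⟩ := ENat.ne_top_iff_exists.1 (ne_top_of_le_ne_top (ENat.coe_ne_top B) hxB)
    exact ⟨k, by exact_mod_cast hxB, rfl⟩
  have hgr : IsGreatest (Values n t) (sSup (Values n t)) :=
    ⟨hne.csSup_mem hfin, fun x hx => le_sSup hx⟩
  have hsB : sSup (Values n t) ≤ (B : ℕ∞) := sSup_le hle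
  obtain ⟨m, hm⟩ := ENat.ne_top_iff_exists.1 (ne_top_of_le_ne_top (ENat.coe_ne_top B) hsB)
  refine ⟨m, hm.symm, hm ▸ hgr, ?_, ?_⟩
  · have h3 : (m₀ : ℕ∞) ≤ (m : ℕ∞) := by
      rw [hm]; exact hm1.trans (le_sSup hmem)
    have h4 : m₀ ≤ m := by exact_mod_cast h3
    have h5 : (m₀ : ℝ) ≤ m := by exact_mod_cast h4
    exact hm2.trans h5
  · have h3 : (m : ℕ∞) ≤ (B : ℕ∞) := by rw [hm]; exact hsB
    have h4 : m ≤ B := by exact_mod_cast h3
    have h5 : (m : ℝ) ≤ B := by exact_mod_cast h4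
    exact h5.trans hB1

/-- **Theorem.** Let `t > n` and `2 t ≤ n choose 2`.
* If `2 t > ⌊n²/4⌋ + ⌊(n+1)/4⌋` then `f(n,t) = 3`.
* If `2 t ≤ ⌊n²/4⌋ + ⌊(n+1)/4⌋` then `f(n,t) ≥ 4`, with equality whenever `t > n √(n-1) / 2`.
* If `n ≥ 24` then `Phi n t / 80 ≤ f(n,t) ≤ 152 Phi n t`. -/
theorem result (n t : ℕ) (h1 : n < t) (h2 : 2 * t ≤ n.choose 2) :
    (n ^ 2 / 4 + (n + 1) / 4 < 2 * t → f n t = 3 ∧ IsGreatest (Values n t) 3) ∧
    (2 * t ≤ n ^ 2 / 4 + (n + 1) / 4 → 4 ≤ f n t) ∧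
    (2 * t ≤ n ^ 2 / 4 + (n + 1) / 4 → n ^ 2 * (n - 1) < 4 * t ^ 2 →
      f n t = 4 ∧ IsGreatest (Values n t) 4) ∧
    (24 ≤ n → ∃ m : ℕ, f n t = m ∧ IsGreatest (Values n t) m ∧
      1 / 80 * Phi n t ≤ m ∧ (m : ℝ) ≤ 152 * Phi n t) :=
  ⟨(exact_range n t h1 h2).1, (exact_range n t h1 h2).2.1, (exact_range n t h1 h2).2.2,
    fun hn => order_range n t hn h1 h2⟩

end Pool.Agent.Results.MP_df8ddc_co.ExactAndOrderH30
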